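import Pool.Agent.Helper319LP.Fin

/-! Permanence of the property C^q for the types E6 and E7 under passage to a field of Laurent
series in characteristic zero. -/

namespace Pool.Agent.Results.MP_92f1cb_nt.LaurentPermanence

open EKn LP319

universe u

theorem result (ty : Ty) (q : ℕ) (k : Type u) [Field k] [CharZero k] (h : HasC ty q k) :
    HasC ty (q + 1) (LaurentSeries k) := h.laurent

end Pool.Agent.Results.MP_92f1cb_nt.LaurentPermanence
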